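import Pool.Agent.P8H74.BL.Lor

set_option autoImplicit false

/-! For every nonempty open convex cone `K ≠ ℝⁿ` and every degree, the space of normalised
`K`-Lorentzian polynomials is homeomorphic to a closed Euclidean ball. -/

open MvPolynomial

namespace Pool.Agent.Results.MP_be554d_co.LorentzianBall

variable {n : ℕ}

/-- The directional derivative `D_u f = ∑ i, u_i ∂f/∂t_i`. -/
noncomputable def D (u : Fin n → ℝ) (f : MvPolynomial (Fin n) ℝ) : MvPolynomial (Fin n) ℝ :=
  ∑ i, u i • pderiv i f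

/-- The polynomial `D_{v_1} ⋯ D_{v_k} f`, for a list `v_1, …, v_k` of vectors. -/
noncomputable def DL (l : List (Fin n → ℝ)) (f : MvPolynomial (Fin n) ℝ) : MvPolynomial (Fin n) ℝ :=
  l.foldr D f

/-- The number `B(x, y) = D_x D_y D_{v_3} ⋯ D_{v_d} f`, where `l` is the list `v_3, …, v_d` (the
polynomial is constant if `f` is homogeneous of degree `d`; we take its constant coefficient). -/
noncomputable def B (l : List (Fin n → ℝ)) (f : MvPolynomial (Fin n) ℝ) (x y : Fin n → ℝ) : ℝ :=
  constantCoeff (D x (D y (DL l f)))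

/-- The matrix of the bilinear form `B` in the standard basis. -/
noncomputable def matB (l : List (Fin n → ℝ)) (f : MvPolynomial (Fin n) ℝ) :
    Matrix (Fin n) (Fin n) ℝ :=
  Matrix.of fun i j => B l f (Pi.single i 1) (Pi.single j 1)

/-- `f` is `K`-Lorentzian of degree `d`: either `d = 0` and `f` is a nonnegative constant, or `d ≥ 1`,
`f` is homogeneous of degree `d`, the number `D_{v_1} ⋯ D_{v_d} f` is positive for all
`v_1, …, v_d ∈ K`, and (when `d ≥ 2`) for all `v_3, …, v_d ∈ K` the matrix of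
`B(x, y) = D_x D_y D_{v_3} ⋯ D_{v_d} f` is symmetric and has exactly one positive eigenvalue, counted
with multiplicity. -/
def IsLorentzian (K : Set (Fin n → ℝ)) (d : ℕ) (f : MvPolynomial (Fin n) ℝ) : Prop :=
  (d = 0 ∧ ∃ c : ℝ, 0 ≤ c ∧ f = C c) ∨
  (1 ≤ d ∧ f.IsHomogeneous d ∧
    (∀ v : Fin d → Fin n → ℝ, (∀ j, v j ∈ K) → 0 < constantCoeff (DL (List.ofFn v) f)) ∧
    (∀ m : ℕ, m + 2 = d → ∀ v : Fin m → Fin n → ℝ, (∀ j, v j ∈ K) →
      ∃ h : (matB (List.ofFn v) f).IsHermitian,
        (Finset.univ.filter fun i => 0 < h.eigenvalues i).card = 1))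

/-- The space of the `K`-Lorentzian polynomials `f` of degree `d` with `f(v) = 1`, each given by its
coefficients, with the topology of convergence of all coefficients (this is the topology induced by
the Euclidean topology of the finite dimensional space of `d`-homogeneous polynomials). -/
def PL (K : Set (Fin n → ℝ)) (d : ℕ) (v : Fin n → ℝ) : Set ((Fin n →₀ ℕ) → ℝ) :=
  {c | ∃ f : MvPolynomial (Fin n) ℝ, IsLorentzian K d f ∧ MvPolynomial.eval v f = 1 ∧
    ∀ m, c m = coeff m f}

/-- Let `K` be an open convex cone in `ℝⁿ` and `v` a point of `K`. If `K ≠ ℝⁿ` or `d = 0`, then the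
space of the `K`-Lorentzian polynomials `f` of degree `d` with `f(v) = 1` is homeomorphic to the closed
unit ball of a Euclidean space. In the remaining, degenerate case `K = ℝⁿ` and `d ≥ 1` there are no
such polynomials. -/
theorem result (n d : ℕ) (K : ConvexCone ℝ (Fin n → ℝ)) (hK : IsOpen (K : Set (Fin n → ℝ)))
    (v : Fin n → ℝ) (hv : v ∈ K) :
    ((K : Set (Fin n → ℝ)) ≠ Set.univ ∨ d = 0 →
      ∃ N : ℕ, Nonempty (PL (K : Set (Fin n → ℝ)) d v ≃ₜ
        Metric.closedBall (0 : EuclideanSpace ℝ (Fin N)) 1)) ∧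
    ((K : Set (Fin n → ℝ)) = Set.univ → 1 ≤ d → PL (K : Set (Fin n → ℝ)) d v = ∅) := by
  refine ⟨fun h => ?_, fun h hd => ?_⟩
  · rcases Nat.eq_zero_or_pos d with h0 | h0
    · subst h0
      exact Pool.Agent.P8H74.BL.ball_zero (K : Set (Fin n → ℝ)) v
    · rcases h with h | h
      · exact Pool.Agent.P8H74.BL.ball_pos hK hv h h0
      · omega
  · rw [h]
    exact Pool.Agent.P8H74.BL.empty_univ hd v

end Pool.Agent.Results.MP_be554d_co.LorentzianBall
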